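import Mathlib
import Pool.Agent.Lib.MP_839d5d_co.Lines

/-!
Upper bound for the Weak Win threshold of hypercube Tic-Tac-Toe:
`d_0(n) ≤ ((log 2) / 2 + o(1)) n^2 / log n`.
-/

set_option autoImplicit false

namespace Pool.Agent.Results.MP_839d5d_co.WeakWinUpper

/-- The board `[n]^d`. -/
abbrev Board (n d : ℕ) : Type := Fin d → Fin n

/-- `x : Fin n → Board n d` parametrizes a winning set (geometric line): every coordinate is
constant, or runs through the values in increasing order, or in decreasing order, and at least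
one coordinate is non-constant. -/
def IsLine (n d : ℕ) (x : Fin n → Board n d) : Prop :=
  (∀ j, (∃ c, ∀ t, x t j = c) ∨ (∀ t, x t j = t) ∨ (∀ t, x t j = Fin.rev t)) ∧
    ∃ j, ¬ ∃ c, ∀ t, x t j = c

/-- The list of the first `k` moves when the first player follows `σ` and the second `τ`
(both strategies see the list of all earlier moves). -/
def play {P : Type} (σ τ : List P → P) : ℕ → List P
  | 0 => []
  | k + 1 => play σ τ k ++
      [if Even (play σ τ k).length then σ (play σ τ k) else τ (play σ τ k)]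

/-- A legal strategy claims an unclaimed point as long as there is one. -/
def Legal {P : Type} (σ : List P → P) : Prop := ∀ h : List P, (∃ p, p ∉ h) → σ h ∉ h

/-- The game on `[n]^d` is a Weak Win: the first player has a legal strategy such that against
every legal strategy of the second player, at some time the first player owns all points of some
winning set. A point is owned by the player who claimed it first: the first player owns `p` iff
the (first) occurrence of `p` in the list of moves is at an even index. -/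
def WeakWin (n d : ℕ) : Prop :=
  ∃ σ : List (Board n d) → Board n d, Legal σ ∧
    ∀ τ : List (Board n d) → Board n d, Legal τ →
      ∃ k : ℕ, ∃ x : Fin n → Board n d, IsLine n d x ∧
        ∀ t, x t ∈ play σ τ k ∧ Even (List.idxOf (x t) (play σ τ k))

lemma play_eq {P : Type} (σ τ : List P → P) (k : ℕ) :
    play σ τ k = (Pool.Agent.Lib.MP839d5d.step σ τ)^[k] [] := by
  induction k with
  | zero => rfl
  | succ k ih =>
    rw [Function.iterate_succ_apply', ← ih]
    rfl

lemma isLine_pt {n d : ℕ} (hn : 2 ≤ n) (b : Board n d) (s : Fin d → Fin 3)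
    (hs : ∃ i, s i ≠ 0) : IsLine n d (fun t => Pool.Agent.Lib.MP839d5d.pt b s t) := by
  constructor
  · intro j
    rcases Pool.Agent.Lib.MP839d5d.fin3_cases (s j) with h | h | h
    · left; exact ⟨b j, fun t => by simp [Pool.Agent.Lib.MP839d5d.pt, h]⟩
    · right; left; intro t; simp [Pool.Agent.Lib.MP839d5d.pt, h]
    · right; right; intro t; simp [Pool.Agent.Lib.MP839d5d.pt, h]
  · obtain ⟨i, hi⟩ := hs
    refine ⟨i, ?_⟩
    rintro ⟨c, hc⟩
    have h0 := hc ⟨0, by omega⟩
    have h1 := hc ⟨1, by omega⟩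
    have h2 := h0.trans h1.symm
    simp only [Pool.Agent.Lib.MP839d5d.pt, if_neg hi] at h2
    by_cases h3 : s i = 1
    · simp [h3] at h2
    · simp [h3] at h2

lemma weakWin_of_choose (n d a f : ℕ) (hn : 2 ≤ n) (ha : 1 ≤ a)
    (hd : d = a + f * ((n + 1) / 2)) (hC : n * 2 ^ (n - 2) < (a + f).choose a) :
    WeakWin n d := by
  obtain ⟨σ, hleg, hσ⟩ := Pool.Agent.Lib.MP839d5d.legal_win_of_choose n d a f hn ha hd hC
  refine ⟨σ, hleg, fun τ _ => ?_⟩
  obtain ⟨k, b, s, hs, hall⟩ := hσ τ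
  refine ⟨k, fun t => Pool.Agent.Lib.MP839d5d.pt b s t, isLine_pt hn b s hs, fun t => ?_⟩
  rw [play_eq]
  exact hall t

/-- Lower bound for binomial coefficients. -/
lemma choose_ge (a f : ℕ) (hf : 1 ≤ f) :
    ((a : ℝ) / f) ^ f ≤ ((a + f).choose a : ℝ) := by
  have h1 : (a + f).choose a = (a + f).choose f := by
    rw [Nat.choose_symm_add]
  rw [h1]
  have h2 := Nat.pow_le_choose (α := ℝ) f (a + f)
  have h3 : a + f + 1 - f = a + 1 := by omega
  rw [h3] at h2
  have hfR : (0 : ℝ) < f := by exact_mod_cast hf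
  have hfac : (f.factorial : ℝ) ≤ (f : ℝ) ^ f := by exact_mod_cast Nat.factorial_le_pow f
  have hfacpos : (0 : ℝ) < f.factorial := by exact_mod_cast Nat.factorial_pos f
  calc ((a : ℝ) / f) ^ f = (a : ℝ) ^ f / (f : ℝ) ^ f := by rw [div_pow]
    _ ≤ (a : ℝ) ^ f / (f.factorial : ℝ) := by
        apply div_le_div_of_nonneg_left (by positivity) hfacpos hfac
    _ ≤ ((a + 1 : ℕ) : ℝ) ^ f / (f.factorial : ℝ) := by
        apply div_le_div_of_nonneg_right _ hfacpos.le
        apply pow_le_pow_left₀ (by positivity)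
        push_cast; linarith
    _ ≤ _ := by
        first
          | exact_mod_cast h2
          | (push_cast at h2 ⊢; exact h2)

lemma final_ineq (ε L N F f A : ℝ) (hε : 0 < ε) (hε1 : ε ≤ 1) (hLpos : 0 < L) (hNpos : 0 < N)
    (hF : F * L = (1 + ε) * N * Real.log 2) (hf : F ≤ f) (hfpos : 0 ≤ f)
    (hA : -A ≤ ε / 4 * L) (hL3 : L ≤ 0.05 * ε * N) :
    L + (N - 2) * Real.log 2 < f * (A + L) := by
  have hlog2 := Real.log_two_gt_d9
  have h8 : 0 < Real.log 2 := by linarith
  have h1 : (1 - ε / 4) * L ≤ A + L := by linarith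
  have h2 : 0 ≤ (1 - ε / 4) * L := by
    apply mul_nonneg _ hLpos.le; linarith
  have h3 : F * ((1 - ε / 4) * L) ≤ f * (A + L) :=
    mul_le_mul hf h1 h2 hfpos
  have h4 : F * ((1 - ε / 4) * L) = (1 + ε) * (1 - ε / 4) * (N * Real.log 2) := by
    calc F * ((1 - ε / 4) * L) = (F * L) * (1 - ε / 4) := by ring
      _ = _ := by rw [hF]; ring
  have h51 : (1 + ε) * (1 - ε / 4) = (1 + ε / 2) + ε / 4 * (1 - ε) := by ring
  have h52 : 0 ≤ ε / 4 * (1 - ε) := mul_nonneg (by linarith) (by linarith)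
  have h5 : (1 + ε / 2) * (N * Real.log 2) ≤ (1 + ε) * (1 - ε / 4) * (N * Real.log 2) := by
    apply mul_le_mul_of_nonneg_right
    · linarith
    · exact (mul_pos hNpos h8).le
  have h7 : 0 < ε * N := mul_pos hε hNpos
  have h71 : (ε * N) * 0.6 ≤ (ε * N) * Real.log 2 :=
    mul_le_mul_of_nonneg_left (by linarith) h7.le
  have h72 : ε / 2 * (N * Real.log 2) = (ε * N) * Real.log 2 / 2 := by ring
  have h6 : L < ε / 2 * (N * Real.log 2) := by
    rw [h72]
    linarith
  have h9 : (N - 2) * Real.log 2 = N * Real.log 2 - 2 * Real.log 2 := by ring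
  have h10 : (1 + ε / 2) * (N * Real.log 2) =
      N * Real.log 2 + ε / 2 * (N * Real.log 2) := by ring
  rw [h9]
  linarith

lemma gap_ineq (ε N q F f h d : ℝ) (hε : 0 < ε) (hε1 : ε ≤ 1) (hN : 0 < N) (hq20 : 20 ≤ q)
    (hεq : 20 ≤ ε * q) (hqN : q ≤ N / 2)
    (hF : F = (1 + ε) * Real.log 2 * q) (hf : f ≤ F + 1) (hh : h ≤ (N + 1) / 2)
    (hh0 : 0 ≤ h) (hd : (Real.log 2 / 2 + ε) * (N * q) ≤ d) :
    (0.5 * ε) * (N * q) ≤ d - f * h ∧ f ≤ 2.4 * q := by
  have hlog2 := Real.log_two_gt_d9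
  have hlog2' := Real.log_two_lt_d9
  have h1 : (1 + ε) * Real.log 2 ≤ 1.4 := by
    have : (1 + ε) * Real.log 2 ≤ 2 * Real.log 2 :=
      mul_le_mul_of_nonneg_right (by linarith) (by linarith)
    linarith
  have hFle : F ≤ 1.4 * q := by
    rw [hF]; exact mul_le_mul_of_nonneg_right h1 (by linarith)
  have hF0 : 0 ≤ F := by
    rw [hF]
    apply mul_nonneg (mul_nonneg (by linarith) (by linarith)) (by linarith)
  refine ⟨?_, by linarith⟩
  have hNq : 0 < N * q := mul_pos hN (by linarith)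
  have hfh : f * h ≤ (1 + ε) * Real.log 2 / 2 * (N * q) + 2 * N := by
    calc f * h ≤ (F + 1) * ((N + 1) / 2) := by
          apply mul_le_mul hf hh hh0 (by linarith)
      _ = F * N / 2 + F / 2 + (N + 1) / 2 := by ring
      _ ≤ (1 + ε) * Real.log 2 / 2 * (N * q) + 2 * N := by
          have h1 : F * N / 2 = (1 + ε) * Real.log 2 / 2 * (N * q) := by rw [hF]; ring
          rw [h1]
          linarith
  have h2 : 20 * N ≤ ε * (N * q) := by
    have := mul_le_mul_of_nonneg_left hεq hN.le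
    linarith
  have h3 : (1 - Real.log 2 / 2) * (ε * (N * q)) ≥ 0.65 * (ε * (N * q)) := by
    apply mul_le_mul_of_nonneg_right _ (mul_pos hε hNq).le
    linarith
  have h4 : (Real.log 2 / 2 + ε) * (N * q) - (1 + ε) * Real.log 2 / 2 * (N * q) =
      (1 - Real.log 2 / 2) * (ε * (N * q)) := by ring
  have h5 : (0.5 * ε) * (N * q) = 0.5 * (ε * (N * q)) := by ring
  rw [h5]
  linarith

/-- The quantitative core. -/
lemma core (ε : ℝ) (hε : 0 < ε) (hε1 : ε ≤ 1) (n : ℕ) (hn : 2 ≤ n)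
    (hL1 : 2 ≤ Real.log n) (hL2 : -Real.log (0.2 * ε) ≤ ε / 4 * Real.log n)
    (hL3 : Real.log n ≤ 0.05 * ε * n)
    (d : ℕ) (hd : (Real.log 2 / 2 + ε) * (n : ℝ) ^ 2 / Real.log n ≤ d) : WeakWin n d := by
  have hlog2 := Real.log_two_gt_d9
  have hlog2' := Real.log_two_lt_d9
  have h8 : 0 < Real.log 2 := by linarith
  have hLpos : 0 < Real.log n := by linarith
  have hN2 : (2 : ℝ) ≤ (n : ℝ) := by exact_mod_cast hn
  have hNpos : 0 < (n : ℝ) := by linarith
  obtain ⟨F, hF⟩ : ∃ F : ℝ, F = (1 + ε) * n * Real.log 2 / Real.log n := ⟨_, rfl⟩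
  obtain ⟨q, hq⟩ : ∃ q : ℝ, q = (n : ℝ) / Real.log n := ⟨_, rfl⟩
  have hFL : F * Real.log n = (1 + ε) * n * Real.log 2 := by
    rw [hF]; field_simp
  have hFpos : 0 < F := by
    rw [hF]; apply div_pos _ hLpos
    exact mul_pos (mul_pos (by linarith) hNpos) h8
  obtain ⟨f, hf⟩ : ∃ f : ℕ, f = ⌈F⌉₊ := ⟨_, rfl⟩
  have hf1 : 1 ≤ f := by
    rw [hf]; exact Nat.one_le_ceil_iff.2 hFpos
  have hfge : F ≤ (f : ℝ) := by rw [hf]; exact Nat.le_ceil F
  have hflt : (f : ℝ) < F + 1 := by rw [hf]; exact Nat.ceil_lt_add_one hFpos.le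
  have hfR : (0 : ℝ) < f := by exact_mod_cast hf1
  have hq1 : 20 / ε ≤ q := by
    rw [hq, div_le_div_iff₀ hε hLpos]
    linarith
  have hεq : 20 ≤ ε * q := by
    rw [div_le_iff₀ hε] at hq1
    linarith
  have hq20 : 20 ≤ q := by
    refine le_trans ?_ hq1
    rw [le_div_iff₀ hε]; linarith
  have hFq : F = (1 + ε) * Real.log 2 * q := by rw [hF, hq]; ring
  have hqN : q ≤ (n : ℝ) / 2 := by
    rw [hq]
    exact div_le_div_of_nonneg_left hNpos.le (by norm_num) hL1
  obtain ⟨h, hh⟩ : ∃ h : ℕ, h = (n + 1) / 2 := ⟨_, rfl⟩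
  have hhR : (h : ℝ) ≤ ((n : ℝ) + 1) / 2 := by
    rw [hh]
    have := @Nat.cast_div_le ℝ _ _ _ (n + 1) 2
    push_cast at this ⊢
    exact this
  have hd' : (Real.log 2 / 2 + ε) * ((n : ℝ) * q) ≤ d := by
    have : (Real.log 2 / 2 + ε) * ((n : ℝ) * q) =
        (Real.log 2 / 2 + ε) * (n : ℝ) ^ 2 / Real.log n := by
      rw [hq]; ring
    rw [this]; exact hd
  obtain ⟨hagap, hf24⟩ := gap_ineq ε n q F f h d hε hε1 hNpos hq20 hεq hqN hFq hflt.le hhR
    (Nat.cast_nonneg _) hd'
  have hNq : 0 < (n : ℝ) * q := mul_pos hNpos (by linarith)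
  have hfhd : f * h ≤ d := by
    have h1 : (0 : ℝ) ≤ (0.5 * ε) * (n * q) := mul_nonneg (by linarith) hNq.le
    have h2 : ((f * h : ℕ) : ℝ) ≤ (d : ℝ) := by push_cast; linarith
    exact_mod_cast h2
  obtain ⟨a, ha⟩ : ∃ a : ℕ, a = d - f * h := ⟨_, rfl⟩
  have haR : (a : ℝ) = (d : ℝ) - (f : ℝ) * h := by
    rw [ha, Nat.cast_sub hfhd]; push_cast; ring
  have hage : (0.5 * ε) * (n * q) ≤ (a : ℝ) := by rw [haR]; exact hagap
  have hapos : (0 : ℝ) < a :=
    lt_of_lt_of_le (mul_pos (by linarith) hNq) hage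
  have ha1 : 1 ≤ a := by exact_mod_cast hapos
  have hdeq : d = a + f * ((n + 1) / 2) := by
    rw [← hh, ha]; exact (Nat.sub_add_cancel hfhd).symm
  apply weakWin_of_choose n d a f hn ha1 hdeq
  -- the binomial coefficient is large
  have hratio : 0.2 * ε * n ≤ (a : ℝ) / f := by
    rw [le_div_iff₀ hfR]
    calc 0.2 * ε * n * f ≤ 0.2 * ε * n * (2.4 * q) := by
          apply mul_le_mul_of_nonneg_left hf24
          exact mul_nonneg (by linarith) hNpos.le
      _ = 0.48 * (ε * (n * q)) := by ring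
      _ ≤ (0.5 * ε) * (n * q) := by linarith [mul_pos hε hNq]
      _ ≤ a := hage
  have hbase : 0 < 0.2 * ε * (n : ℝ) := mul_pos (by linarith) hNpos
  have hchoose : (0.2 * ε * n) ^ f ≤ ((a + f).choose a : ℝ) :=
    le_trans (pow_le_pow_left₀ hbase.le hratio f) (choose_ge a f hf1)
  have hgoal : (n : ℝ) * 2 ^ (n - 2) < ((a + f).choose a : ℝ) := by
    refine lt_of_lt_of_le ?_ hchoose
    rw [← Real.log_lt_log_iff (by positivity) (pow_pos hbase f)]
    rw [Real.log_mul (by positivity) (by positivity), Real.log_pow, Real.log_pow,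
      Real.log_mul (by positivity) (by positivity)]
    rw [Nat.cast_sub hn]
    exact final_ineq ε (Real.log n) n F f (Real.log (0.2 * ε)) hε hε1 hLpos hNpos hFL hfge
      hfR.le hL2 hL3
  exact_mod_cast hgoal

/-- For every `ε > 0`, for all large `n` the game on `[n]^d` is a Weak Win for every
`d ≥ ((log 2)/2 + ε) n^2 / log n`. -/
theorem result : ∀ ε : ℝ, 0 < ε → ∃ N : ℕ, ∀ n : ℕ, N ≤ n → ∀ d : ℕ,
    (Real.log 2 / 2 + ε) * (n : ℝ) ^ 2 / Real.log n ≤ d → WeakWin n d := by
  intro ε hε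
  set δ : ℝ := min ε 1 with hδ
  have hδpos : 0 < δ := lt_min hε one_pos
  have hδ1 : δ ≤ 1 := min_le_right _ _
  have hδε : δ ≤ ε := min_le_left _ _
  have hlog : Filter.Tendsto (fun n : ℕ => Real.log (n : ℝ)) Filter.atTop Filter.atTop :=
    Real.tendsto_log_atTop.comp tendsto_natCast_atTop_atTop
  have e1 : ∀ᶠ n : ℕ in Filter.atTop, 2 ≤ Real.log (n : ℝ) :=
    hlog.eventually (Filter.eventually_ge_atTop 2)
  have e2 : ∀ᶠ n : ℕ in Filter.atTop,
      -Real.log (0.2 * δ) / (δ / 4) ≤ Real.log (n : ℝ) :=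
    hlog.eventually (Filter.eventually_ge_atTop _)
  have e3 : ∀ᶠ n : ℕ in Filter.atTop, Real.log (n : ℝ) ≤ 0.05 * δ * n := by
    have h1 := (Real.isLittleO_log_id_atTop.comp_tendsto
      (tendsto_natCast_atTop_atTop (R := ℝ))).bound (c := 0.05 * δ) (by positivity)
    filter_upwards [h1, e1] with n hn hn1
    simp only [Function.comp, id, Real.norm_eq_abs] at hn
    have h2 : |((n : ℕ) : ℝ)| = n := abs_of_nonneg (Nat.cast_nonneg _)
    rw [h2] at hn
    exact le_trans (le_abs_self _) hn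
  obtain ⟨N, hN⟩ := Filter.eventually_atTop.1 (e1.and (e2.and e3))
  refine ⟨max N 2, fun n hn d hd => ?_⟩
  obtain ⟨h1, h2, h3⟩ := hN n (le_trans (le_max_left _ _) hn)
  have hn2 : 2 ≤ n := le_trans (le_max_right _ _) hn
  refine core δ hδpos hδ1 n hn2 h1 ?_ h3 d ?_
  · rw [div_le_iff₀ (by positivity)] at h2
    linarith
  · refine le_trans ?_ hd
    apply div_le_div_of_nonneg_right _ (by linarith)
    apply mul_le_mul_of_nonneg_right _ (by positivity)
    linarith

end Pool.Agent.Results.MP_839d5d_co.WeakWinUpper
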